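import Mathlib

/-! A superadditive ergodic theorem (Kingman) for nonnegative, linearly bounded processes over a
measure preserving (not necessarily ergodic) map. -/

set_option autoImplicit false

namespace Pool.Agent.H50.SuperErgodic

open MeasureTheory Filter Topology Set
open scoped ENNReal

variable {X : Type*} [MeasurableSpace X] {m : Measure X} [IsProbabilityMeasure m]

variable {T : X → X} {L : ℕ → X → ℝ} {B : ℝ}

omit [MeasurableSpace X] in
/-- covering lemma -/
lemma cover (h0 : ∀ n x, 0 ≤ L n x) (hs : ∀ k l x, L k x + L l (T^[k] x) ≤ L (k + l) x)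
    {a : ℝ} (ha : 0 ≤ a) (N : ℕ) (G : X → Prop) [DecidablePred G]
    (hG : ∀ x, G x → ∃ n, 1 ≤ n ∧ n ≤ N ∧ a * n ≤ L n x) :
    ∀ M x, a * (∑ j ∈ Finset.range M, if G (T^[j] x) then (1 : ℝ) else 0) ≤ L M x + a * N := by
  intro M
  induction M using Nat.strong_induction_on with
  | _ M ih =>
    intro x
    rcases le_or_gt M N with hMN | hMN
    · have h1 : (∑ j ∈ Finset.range M, if G (T^[j] x) then (1 : ℝ) else 0) ≤ N := by
        calc (∑ j ∈ Finset.range M, if G (T^[j] x) then (1 : ℝ) else 0)
            ≤ ∑ j ∈ Finset.range M, (1 : ℝ) := Finset.sum_le_sum fun j _ => by split_ifs <;> norm_num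
          _ = M := by simp
          _ ≤ N := by exact_mod_cast hMN
      have h2 := h0 M x
      nlinarith [mul_le_mul_of_nonneg_left h1 ha]
    · by_cases hx : G x
      · obtain ⟨n, hn1, hn2, hn3⟩ := hG x hx
        have hlt : M - n < M := by omega
        have h1 := ih (M - n) hlt (T^[n] x)
        have h2 := hs n (M - n) x
        have e : n + (M - n) = M := by omega
        rw [e] at h2
        have h3 : (∑ j ∈ Finset.range M, if G (T^[j] x) then (1 : ℝ) else 0)
            = (∑ j ∈ Finset.range n, if G (T^[j] x) then (1 : ℝ) else 0)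
              + ∑ j ∈ Finset.range (M - n), if G (T^[j] (T^[n] x)) then (1 : ℝ) else 0 := by
          conv_lhs => rw [← e]
          rw [Finset.sum_range_add]
          congr 1
          refine Finset.sum_congr rfl fun j _ => ?_
          rw [← Function.iterate_add_apply, add_comm n j]
        have h4 : (∑ j ∈ Finset.range n, if G (T^[j] x) then (1 : ℝ) else 0) ≤ n := by
          calc (∑ j ∈ Finset.range n, if G (T^[j] x) then (1 : ℝ) else 0)
              ≤ ∑ j ∈ Finset.range n, (1 : ℝ) :=
                Finset.sum_le_sum fun j _ => by split_ifs <;> norm_num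
            _ = n := by simp
        rw [h3, mul_add]
        have h5 := mul_le_mul_of_nonneg_left h4 ha
        linarith
      · obtain ⟨M', rfl⟩ : ∃ M', M = M' + 1 := ⟨M - 1, by omega⟩
        have h1 := ih M' (by omega) (T x)
        have h2 := hs 1 M' x
        have h20 := h0 1 x
        rw [Finset.sum_range_succ']
        rw [Function.iterate_one, add_comm 1 M'] at h2
        have e1 : (if G (T^[0] x) then (1 : ℝ) else 0) = 0 := by simp [hx]
        rw [e1, add_zero]
        simp only [Function.iterate_succ_apply]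
        exact h1.trans (by linarith)

/-- maximal inequality for the visits to a set -/
lemma maximal (hT : MeasurePreserving T m m) {E : Set X} (hE : MeasurableSet E) {δ : ℝ}
    (hδ : 0 < δ) (K : ℕ) :
    δ * m.real {x | ∃ n, 1 ≤ n ∧ n ≤ K ∧
      δ * n ≤ ∑ j ∈ Finset.range n, E.indicator (fun _ => (1 : ℝ)) (T^[j] x)} ≤ m.real E := by
  classical
  set S : Set X := {x | ∃ n, 1 ≤ n ∧ n ≤ K ∧
      δ * n ≤ ∑ j ∈ Finset.range n, E.indicator (fun _ => (1 : ℝ)) (T^[j] x)} with hS
  set L' : ℕ → X → ℝ := fun n x => ∑ j ∈ Finset.range n, E.indicator (fun _ => (1 : ℝ)) (T^[j] x)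
    with hL'
  have hind : Measurable (E.indicator (fun _ => (1 : ℝ))) := measurable_const.indicator hE
  have hLm : ∀ n, Measurable (L' n) := fun n =>
    Finset.measurable_sum _ fun j _ => hind.comp (hT.measurable.iterate j)
  have h0 : ∀ n x, 0 ≤ L' n x := fun n x =>
    Finset.sum_nonneg fun j _ => Set.indicator_nonneg (fun _ _ => zero_le_one) _
  have hs : ∀ k l x, L' k x + L' l (T^[k] x) ≤ L' (k + l) x := by
    intro k l x
    simp only [hL']
    rw [Finset.sum_range_add]
    refine le_of_eq ?_
    congr 1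
    refine Finset.sum_congr rfl fun j _ => ?_
    rw [← Function.iterate_add_apply, add_comm k j]
  have hSm : MeasurableSet S := by
    have : S = ⋃ n : ℕ, ⋃ _ : 1 ≤ n ∧ n ≤ K, {x | δ * n ≤ L' n x} := by
      ext x
      simp only [hS, hL', mem_ofPred_eq, mem_iUnion, exists_prop]
      constructor
      · rintro ⟨n, h1, h2, h3⟩; exact ⟨n, ⟨h1, h2⟩, h3⟩
      · rintro ⟨n, ⟨h1, h2⟩, h3⟩; exact ⟨n, h1, h2, h3⟩
    rw [this]
    exact MeasurableSet.iUnion fun n => MeasurableSet.iUnion fun _ =>
      measurableSet_le measurable_const (hLm n)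
  have hival : ∀ (F : Set X), MeasurableSet F → ∀ j,
      ∫ x, F.indicator (fun _ => (1 : ℝ)) (T^[j] x) ∂m = m.real F := by
    intro F hF j
    have hmp := hT.iterate j
    have e1 : (fun x => F.indicator (fun _ => (1 : ℝ)) (T^[j] x)) =
        (T^[j] ⁻¹' F).indicator 1 := by
      ext x
      simp only [Set.indicator, mem_preimage, Pi.one_apply]
    rw [e1, integral_indicator_one ((hT.measurable.iterate j) hF)]
    exact hmp.measureReal_preimage hF.nullMeasurableSet
  have hii : ∀ (F : Set X), MeasurableSet F → ∀ j,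
      Integrable (fun x => F.indicator (fun _ => (1 : ℝ)) (T^[j] x)) m := by
    intro F hF j
    refine Integrable.of_bound ((measurable_const.indicator hF).comp
      (hT.measurable.iterate j)).aestronglyMeasurable 1 (Eventually.of_forall fun x => ?_)
    simp only [Set.indicator]
    split_ifs <;> simp
  have h1 : ∀ M : ℕ, δ * (M * m.real S) ≤ M * m.real E + δ * K := by
    intro M
    have h2 := cover h0 hs hδ.le K (fun x => x ∈ S) (fun x hx => hx) M
    have h2' : ∀ x, δ * (∑ j ∈ Finset.range M, S.indicator (fun _ => (1 : ℝ)) (T^[j] x)) ≤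
        L' M x + δ * K := by
      intro x
      refine le_trans (le_of_eq ?_) (h2 x)
      simp only [Set.indicator]
    have h3 : ∫ x, δ * (∑ j ∈ Finset.range M, S.indicator (fun _ => (1 : ℝ)) (T^[j] x)) ∂m
        = δ * (M * m.real S) := by
      rw [integral_const_mul, integral_finsetSum _ (fun j _ => hii S hSm j)]
      simp only [hival S hSm]
      simp
    have h4 : ∫ x, L' M x ∂m = M * m.real E := by
      simp only [hL']
      rw [integral_finsetSum _ (fun j _ => hii E hE j)]
      simp only [hival E hE]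
      simp
    have h5 : Integrable (L' M) m := integrable_finsetSum _ (fun j _ => hii E hE j)
    rw [← h3, ← h4]
    calc _ ≤ ∫ x, (L' M x + δ * K) ∂m := by
          refine integral_mono ?_ (h5.add (integrable_const _)) h2'
          exact (integrable_finsetSum _ (fun j _ => hii S hSm j)).const_mul _
      _ = _ := by
        rw [integral_add h5 (integrable_const _)]
        simp
  have h4 : Tendsto (fun M : ℕ => m.real E + δ * K / M) atTop (𝓝 (m.real E + 0)) :=
    tendsto_const_nhds.add (tendsto_const_div_atTop_nhds_zero_nat _)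
  rw [add_zero] at h4
  refine ge_of_tendsto h4 ?_
  filter_upwards [eventually_ge_atTop 1] with M hM
  have hM' : (0 : ℝ) < M := by exact_mod_cast hM
  have h5 := h1 M
  have h7 : m.real E + δ * K / M = (M * m.real E + δ * K) / M := by field_simp
  rw [h7, le_div_iff₀ hM']
  linarith

/-- maximal inequality, without restriction on the times -/
lemma maximal' (hT : MeasurePreserving T m m) {E : Set X} (hE : MeasurableSet E) {δ : ℝ}
    (hδ : 0 < δ) :
    m {x | ∃ n, 1 ≤ n ∧
      δ * n ≤ ∑ j ∈ Finset.range n, E.indicator (fun _ => (1 : ℝ)) (T^[j] x)} ≤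
      ENNReal.ofReal (m.real E / δ) := by
  set S : ℕ → Set X := fun K => {x | ∃ n, 1 ≤ n ∧ n ≤ K ∧
      δ * n ≤ ∑ j ∈ Finset.range n, E.indicator (fun _ => (1 : ℝ)) (T^[j] x)} with hS
  have hmono : Monotone S := by
    intro K K' h x hx
    obtain ⟨n, h1, h2, h3⟩ := hx
    exact ⟨n, h1, h2.trans h, h3⟩
  have hU : {x | ∃ n, 1 ≤ n ∧
      δ * n ≤ ∑ j ∈ Finset.range n, E.indicator (fun _ => (1 : ℝ)) (T^[j] x)} = ⋃ K, S K := by
    ext x
    simp only [hS, mem_ofPred_eq, mem_iUnion]
    constructor
    · rintro ⟨n, h1, h2⟩; exact ⟨n, n, h1, le_rfl, h2⟩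
    · rintro ⟨K, n, h1, h2, h3⟩; exact ⟨n, h1, h3⟩
  rw [hU, hmono.measure_iUnion]
  refine iSup_le fun K => ?_
  have h := maximal hT hE hδ K
  rw [← ENNReal.ofReal_toReal (measure_ne_top m (S K))]
  refine ENNReal.ofReal_le_ofReal ?_
  rw [le_div_iff₀ hδ]
  have : (m (S K)).toReal = m.real (S K) := rfl
  rw [this]
  linarith

/-- **Superadditive ergodic theorem.** -/
theorem superergodic (hT : MeasurePreserving T m m)
    (hL : ∀ n, Measurable (L n)) (h0 : ∀ n x, 0 ≤ L n x) (hB : ∀ n x, L n x ≤ B * n)
    (hs : ∀ k l x, L k x + L l (T^[k] x) ≤ L (k + l) x) :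
    ∀ᵐ x ∂m, ∃ γ : ℝ, Tendsto (fun n : ℕ => L n x / n) atTop (𝓝 γ) := by
  classical
  have hB0 : 0 ≤ B := by
    obtain ⟨x⟩ : Nonempty X := nonempty_of_isProbabilityMeasure m
    have := (h0 1 x).trans (hB 1 x)
    simpa using this
  -- the upper limit
  set u : ℕ → X → ℝ≥0∞ := fun n x => ENNReal.ofReal (L n x / n) with hu
  set f : X → ℝ≥0∞ := fun x => limsup (fun n => u n x) atTop with hf
  have hum : ∀ n, Measurable (u n) := fun n => ENNReal.measurable_ofReal.comp ((hL n).div_const _)
  have hfm : Measurable f := Measurable.limsup hum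
  have huB : ∀ n x, u n x ≤ ENNReal.ofReal B := by
    intro n x
    refine ENNReal.ofReal_le_ofReal ?_
    rcases Nat.eq_zero_or_pos n with rfl | hn
    · simpa using hB0
    · have hn' : (0 : ℝ) < n := by exact_mod_cast hn
      rw [div_le_iff₀ hn']; exact hB n x
  have hfB : ∀ x, f x ≤ ENNReal.ofReal B := by
    intro x
    refine limsup_le_of_le (h := Eventually.of_forall fun n => huB n x)
  have hfT : ∀ x, f (T x) ≤ f x := by
    intro x
    refine ENNReal.le_of_forall_pos_le_add fun ε hε hfin => ?_
    have hε2 : (0 : ℝ≥0∞) < (ε : ℝ≥0∞) / 2 := by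
      refine ENNReal.div_pos (by exact_mod_cast hε.ne') (by norm_num)
    have h1 : ∀ᶠ n in atTop, u n x < f x + ε / 2 := by
      refine eventually_lt_of_limsup_lt ?_ (by isBoundedDefault)
      exact ENNReal.lt_add_right hfin.ne hε2.ne'
    have h2 : Tendsto (fun n : ℕ => ENNReal.ofReal (B / n)) atTop (𝓝 0) := by
      have := ENNReal.tendsto_ofReal (tendsto_const_div_atTop_nhds_zero_nat B)
      simpa using this
    have h3 : ∀ᶠ n : ℕ in atTop, ENNReal.ofReal (B / n) < ε / 2 := h2.eventually (gt_mem_nhds hε2)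
    refine limsup_le_of_le (h := ?_)
    filter_upwards [(tendsto_add_atTop_nat 1).eventually h1, h3, eventually_ge_atTop 1]
      with n hn1 hn2 hn3
    have hn' : (0 : ℝ) < n := by exact_mod_cast hn3
    have h4 : L n (T x) / n ≤ L (n + 1) x / ((n + 1 : ℕ) : ℝ) + B / n := by
      have h5 := hs 1 n x
      have h6 := h0 1 x
      rw [Function.iterate_one, add_comm 1 n] at h5
      have h7 := hB (n + 1) x
      have hn1' : (0 : ℝ) < ((n + 1 : ℕ) : ℝ) := by positivity
      rw [div_add_div _ _ hn1'.ne' hn'.ne', div_le_div_iff₀ hn' (by positivity)]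
      push_cast at h7 ⊢
      have h8 : L n (T x) ≤ L (n + 1) x := by linarith
      have h9 : 0 ≤ L (n + 1) x := h0 _ _
      nlinarith [mul_le_mul_of_nonneg_right h8 (mul_nonneg (add_nonneg hn'.le zero_le_one) hn'.le),
        mul_le_mul_of_nonneg_right h7 hn'.le]
    calc u n (T x) ≤ ENNReal.ofReal (L (n + 1) x / ((n + 1 : ℕ) : ℝ) + B / n) :=
          ENNReal.ofReal_le_ofReal h4
      _ = u (n + 1) x + ENNReal.ofReal (B / n) :=
          ENNReal.ofReal_add (div_nonneg (h0 _ _) (by positivity)) (by positivity)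
      _ ≤ (f x + ε / 2) + ε / 2 := add_le_add hn1.le hn2.le
      _ = f x + ε := by rw [add_assoc, ENNReal.add_halves]
  -- invariance of the upper limit
  have hfinv : ∀ᵐ x ∂m, f (T x) = f x := by
    have h1 : ∫⁻ x, f x ∂m ≠ ∞ := by
      refine ne_of_lt (lt_of_le_of_lt (lintegral_mono hfB) ?_)
      simp
    have h2 : ∫⁻ x, f x ∂m = ∫⁻ x, f (T x) ∂m := (hT.lintegral_comp hfm).symm
    have h3 := ae_eq_of_ae_le_of_lintegral_le (Eventually.of_forall hfT)
      (by rw [← h2]; exact h1) hfm.aemeasurable h2.le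
    exact h3
  have hfinvj : ∀ᵐ x ∂m, ∀ j : ℕ, f (T^[j] x) = f x := by
    rw [ae_all_iff]
    intro j
    induction j with
    | zero => simp
    | succ j ih =>
      have h1 := (hT.iterate j).quasiMeasurePreserving.ae hfinv
      filter_upwards [ih, h1] with x hx1 hx2
      rw [Function.iterate_succ_apply', hx2, hx1]
  set fr : X → ℝ := fun x => (f x).toReal with hfr
  have hfrm : Measurable fr := hfm.ennreal_toReal
  have hfr0 : ∀ x, 0 ≤ fr x := fun x => ENNReal.toReal_nonneg
  have hffin : ∀ x, f x ≠ ∞ := fun x => ne_of_lt (lt_of_le_of_lt (hfB x) ENNReal.ofReal_lt_top)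
  have hfrB : ∀ x, fr x ≤ B := fun x => by
    have := ENNReal.toReal_mono ENNReal.ofReal_ne_top (hfB x)
    rwa [ENNReal.toReal_ofReal hB0] at this
  -- main step
  have hmain : ∀ δ : ℝ, 0 < δ → ∀ᵐ x ∂m, ∀ᶠ M : ℕ in atTop,
      fr x - δ - (B + 1) * δ ≤ L M x / M := by
    intro δ hδ
    set E : ℕ → Set X := fun N => {x | ∀ n, 1 ≤ n → n ≤ N → L n x < (fr x - δ) * n} with hE
    have hEm : ∀ N, MeasurableSet (E N) := by
      intro N
      have : E N = ⋂ n : ℕ, ⋂ _ : 1 ≤ n, ⋂ _ : n ≤ N, {x | L n x < (fr x - δ) * n} := by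
        ext x
        simp only [hE, mem_ofPred_eq, mem_iInter]
      rw [this]
      exact MeasurableSet.iInter fun n => MeasurableSet.iInter fun _ =>
        MeasurableSet.iInter fun _ =>
          measurableSet_lt (hL n) ((hfrm.sub measurable_const).mul measurable_const)
    have hEanti : Antitone E := by
      intro N N' h x hx n h1 h2
      exact hx n h1 (h2.trans h)
    have hEempty : ⋂ N, E N = ∅ := by
      ext x
      simp only [mem_iInter, mem_empty_iff_false, iff_false, not_forall]
      by_contra hcon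
      push Not at hcon
      have h1 : ∀ n, 1 ≤ n → L n x < (fr x - δ) * n := fun n hn => hcon n n hn le_rfl
      have hpos : 0 < fr x - δ := by
        have := h1 1 le_rfl
        have h2 := h0 1 x
        simp only [Nat.cast_one, mul_one] at this
        linarith
      have h2 : f x ≤ ENNReal.ofReal (fr x - δ) := by
        refine limsup_le_of_le (h := ?_)
        filter_upwards [eventually_ge_atTop 1] with n hn
        refine ENNReal.ofReal_le_ofReal ?_
        have hn' : (0 : ℝ) < n := by exact_mod_cast hn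
        rw [div_le_iff₀ hn']
        exact (h1 n hn).le
      have h3 := ENNReal.toReal_mono ENNReal.ofReal_ne_top h2
      rw [ENNReal.toReal_ofReal hpos.le] at h3
      have : fr x ≤ fr x - δ := h3
      linarith
    have hElim : Tendsto (fun N => m (E N)) atTop (𝓝 0) := by
      have h1 := tendsto_measure_iInter_atTop (μ := m) (fun N => (hEm N).nullMeasurableSet) hEanti
        ⟨0, measure_ne_top m _⟩
      rw [hEempty, measure_empty] at h1
      exact h1
    set S : ℕ → Set X := fun N => {x | ∃ n, 1 ≤ n ∧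
      δ * n ≤ ∑ j ∈ Finset.range n, (E N).indicator (fun _ => (1 : ℝ)) (T^[j] x)} with hS
    have hSle : ∀ N, m (S N) ≤ ENNReal.ofReal (m.real (E N) / δ) := fun N => maximal' hT (hEm N) hδ
    have hSlim : Tendsto (fun N => ENNReal.ofReal (m.real (E N) / δ)) atTop (𝓝 0) := by
      have h1 : Tendsto (fun N => m.real (E N)) atTop (𝓝 0) := by
        have h := (ENNReal.tendsto_toReal ENNReal.zero_ne_top).comp hElim
        rw [ENNReal.toReal_zero] at h
        exact h
      have h2 := ENNReal.tendsto_ofReal (h1.div_const δ)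
      simpa using h2
    have hnull : m (⋂ N, S N) = 0 := by
      refine le_antisymm ?_ zero_le
      refine ge_of_tendsto hSlim (Eventually.of_forall fun N => ?_)
      exact (measure_mono (iInter_subset _ N)).trans (hSle N)
    have hae : ∀ᵐ x ∂m, x ∉ ⋂ N, S N := measure_eq_zero_iff_ae_notMem.mp hnull
    filter_upwards [hae, hfinvj] with x hx hinv
    rw [mem_iInter, not_forall] at hx
    obtain ⟨N, hN⟩ := hx
    have hN' : ∀ n, 1 ≤ n →
        ∑ j ∈ Finset.range n, (E N).indicator (fun _ => (1 : ℝ)) (T^[j] x) < δ * n := by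
      intro n hn
      by_contra hcon
      exact hN ⟨n, hn, not_lt.1 hcon⟩
    rcases le_or_gt (fr x - δ) 0 with hneg | hpos
    · refine Eventually.of_forall fun M => ?_
      have h1 : 0 ≤ L M x / M := div_nonneg (h0 _ _) (Nat.cast_nonneg _)
      have h2 : 0 ≤ (B + 1) * δ := by positivity
      linarith
    · set a := fr x - δ with ha
      set G : X → Prop := fun y => ∃ n, 1 ≤ n ∧ n ≤ N ∧ a * n ≤ L n y with hG
      have hcov := cover h0 hs hpos.le N G (fun y hy => hy)
      have hlimB : Tendsto (fun M : ℕ => a * N / M) atTop (𝓝 0) :=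
        tendsto_const_div_atTop_nhds_zero_nat _
      filter_upwards [hlimB.eventually (gt_mem_nhds hδ), eventually_ge_atTop 1] with M hM1 hM2
      have hM' : (0 : ℝ) < M := by exact_mod_cast hM2
      have h1 := hcov M x
      have h2 : (M : ℝ) - ∑ j ∈ Finset.range M, (E N).indicator (fun _ => (1 : ℝ)) (T^[j] x) ≤
          ∑ j ∈ Finset.range M, if G (T^[j] x) then (1 : ℝ) else 0 := by
        have h3 : (M : ℝ) = ∑ j ∈ Finset.range M, (1 : ℝ) := by simp
        rw [h3, ← Finset.sum_sub_distrib]
        refine Finset.sum_le_sum fun j _ => ?_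
        by_cases hj : T^[j] x ∈ E N
        · rw [Set.indicator_of_mem hj]
          split_ifs <;> norm_num
        · rw [Set.indicator_of_notMem hj]
          have hGj : G (T^[j] x) := by
            simp only [hE, mem_ofPred_eq, not_forall, not_lt] at hj
            obtain ⟨n, hn1, hn2, hn3⟩ := hj
            refine ⟨n, hn1, hn2, ?_⟩
            have : fr (T^[j] x) = fr x := by simp only [hfr]; rw [hinv j]
            rwa [this] at hn3
          simp [hGj]
      have h3 := hN' M hM2
      have h4 : a * (M - δ * M) ≤ L M x + a * N := by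
        refine le_trans ?_ h1
        refine mul_le_mul_of_nonneg_left ?_ hpos.le
        linarith
      have h5 : a * N < δ * M := by
        rwa [div_lt_iff₀ hM'] at hM1
      rw [le_div_iff₀ hM']
      have h6 : a ≤ B := by have := hfrB x; linarith
      have h7 : a * (δ * M) ≤ B * (δ * M) := mul_le_mul_of_nonneg_right h6 (by positivity)
      nlinarith
  -- conclusion
  have hmain' : ∀ᵐ x ∂m, ∀ k : ℕ, ∀ᶠ M : ℕ in atTop,
      fr x - 1 / ((k : ℝ) + 1) - (B + 1) * (1 / ((k : ℝ) + 1)) ≤ L M x / M := by
    rw [ae_all_iff]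
    intro k
    exact hmain _ (by positivity)
  filter_upwards [hmain'] with x hx
  refine ⟨fr x, ?_⟩
  rw [Metric.tendsto_atTop']
  intro ε hε
  obtain ⟨k, hk⟩ := exists_nat_one_div_lt (show 0 < ε / (B + 2) by positivity)
  have h1 := hx k
  have h2 : ∀ᶠ n in atTop, u n x < f x + ENNReal.ofReal ε := by
    refine eventually_lt_of_limsup_lt ?_ (by isBoundedDefault)
    exact ENNReal.lt_add_right (hffin x) (by simpa using hε)
  obtain ⟨N, hN⟩ := eventually_atTop.1 (h1.and h2)
  refine ⟨N, fun n hn => ?_⟩
  obtain ⟨h3, h4⟩ := hN n hn.le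
  have h5 : L n x / n < fr x + ε := by
    have h6 : f x + ENNReal.ofReal ε = ENNReal.ofReal (fr x + ε) := by
      rw [ENNReal.ofReal_add (hfr0 x) hε.le, ENNReal.ofReal_toReal (hffin x)]
    rw [h6] at h4
    exact (ENNReal.ofReal_lt_ofReal_iff (by have := hfr0 x; linarith)).1 h4
  rw [Real.dist_eq, abs_lt]
  rw [lt_div_iff₀ (by positivity)] at hk
  constructor
  · have : 1 / ((k : ℝ) + 1) + (B + 1) * (1 / ((k : ℝ) + 1)) = 1 / ((k : ℝ) + 1) * (B + 2) := by
      ring
    linarith
  · linarith

end Pool.Agent.H50.SuperErgodic
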