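import Mathlib
import Pool.Agent.H50.SuperErgodic

/-! Best average payoff along paths in a stationary environment on `ℤ^d`. -/

set_option autoImplicit false

namespace Pool.Agent.H50.PathGame

open MeasureTheory Filter Topology

variable {d : ℕ} {A : Type} (step : A → (Fin d → ℤ))

/-- total payoff along the path with actions `l` started at `z` -/
def pay (g : (Fin d → ℤ) → A → ℝ) : (Fin d → ℤ) → List A → ℝ
  | _, [] => 0
  | z, a :: l => g z a + pay g (z + step a) l

/-- displacement -/
def disp (l : List A) : Fin d → ℤ := (l.map step).sum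

@[simp] lemma disp_nil : disp step [] = 0 := rfl

@[simp] lemma disp_cons (a : A) (l : List A) : disp step (a :: l) = step a + disp step l := by
  simp [disp]

lemma disp_append (l l' : List A) : disp step (l ++ l') = disp step l + disp step l' := by
  simp [disp]

lemma pay_append (g : (Fin d → ℤ) → A → ℝ) (l l' : List A) :
    ∀ z, pay step g z (l ++ l') = pay step g z l + pay step g (z + disp step l) l' := by
  induction l with
  | nil => intro z; simp [pay]
  | cons a l ih =>
    intro z
    simp only [List.cons_append, pay, ih, disp_cons]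
    rw [← add_assoc z (step a), add_assoc (g z a)]

lemma pay_bound {g : (Fin d → ℤ) → A → ℝ} {C : ℝ} (hg : ∀ z a, |g z a| ≤ C) (l : List A) :
    ∀ z, |pay step g z l| ≤ C * l.length := by
  induction l with
  | nil => intro z; simp [pay]
  | cons a l ih =>
    intro z
    simp only [pay, List.length_cons]
    push_cast
    calc |g z a + pay step g (z + step a) l| ≤ |g z a| + |pay step g (z + step a) l| :=
          abs_add_le _ _
      _ ≤ C + C * l.length := add_le_add (hg z a) (ih _)
      _ = C * (l.length + 1) := by ring

lemma pay_neg (g : (Fin d → ℤ) → A → ℝ) (l : List A) :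
    ∀ z, pay step (fun z a => - g z a) z l = - pay step g z l := by
  induction l with
  | nil => intro z; simp [pay]
  | cons a l ih =>
    intro z
    simp only [pay, ih]
    ring

section best

variable [Fintype A]

/-- lists of length `n * |w|` with displacement `n` times that of `w` -/
noncomputable def words (w : List A) (n : ℕ) : Finset (List A) := by
  classical
  exact (List.finite_length_eq A (n * w.length)).toFinset.filter
    (fun l => disp step l = n • disp step w)

lemma mem_words {w : List A} {n : ℕ} {l : List A} :
    l ∈ words step w n ↔ l.length = n * w.length ∧ disp step l = n • disp step w := by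
  classical
  simp [words]

lemma flatten_replicate_mem (w : List A) (n : ℕ) :
    (List.replicate n w).flatten ∈ words step w n := by
  rw [mem_words]
  constructor
  · simp
  · induction n with
    | zero => simp
    | succ n ih => rw [List.replicate_succ, List.flatten_cons, disp_append, ih, succ_nsmul']

lemma words_nonempty (w : List A) (n : ℕ) : (words step w n).Nonempty :=
  ⟨_, flatten_replicate_mem step w n⟩

/-- the best payoff over `words w n` -/
noncomputable def best (g : (Fin d → ℤ) → A → ℝ) (w : List A) (n : ℕ) : ℝ :=
  (words step w n).sup' (words_nonempty step w n) (fun l => pay step g 0 l)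

lemma le_best (g : (Fin d → ℤ) → A → ℝ) {w : List A} {n : ℕ} {l : List A}
    (hl : l ∈ words step w n) : pay step g 0 l ≤ best step g w n :=
  Finset.le_sup' (fun l => pay step g 0 l) hl

lemma exists_best (g : (Fin d → ℤ) → A → ℝ) (w : List A) (n : ℕ) :
    ∃ l ∈ words step w n, best step g w n = pay step g 0 l :=
  Finset.exists_mem_eq_sup' _ _

/-- the multiset with multiplicities `count a l / N + 1` -/
noncomputable def coarse [DecidableEq A] (l : List A) (N : ℕ) : Multiset A :=
  ∑ a : A, (l.count a / N + 1) • ({a} : Multiset A)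

lemma count_coarse [DecidableEq A] (l : List A) (N : ℕ) (a : A) :
    (coarse l N).count a = l.count a / N + 1 := by
  unfold coarse
  rw [Multiset.count_sum']
  simp only [Multiset.count_nsmul, Multiset.count_singleton]
  rw [Finset.sum_eq_single a]
  · simp
  · intro b _ hb
    simp [Ne.symm hb]
  · intro h; exact absurd (Finset.mem_univ a) h

lemma card_coarse [DecidableEq A] (l : List A) {N : ℕ} (hN : 0 < N) :
    N * (coarse l N).card ≤ l.length + N * Fintype.card A ∧ l.length ≤ N * (coarse l N).card := by
  have h1 : (coarse l N).card = ∑ a : A, (l.count a / N + 1) := by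
    rw [← Multiset.sum_count_eq_card (s := (Finset.univ : Finset A)) (fun a _ => Finset.mem_univ a)]
    exact Finset.sum_congr rfl fun a _ => count_coarse l N a
  have h2 : l.length = ∑ a : A, l.count a := by
    have := Multiset.sum_count_eq_card (s := (Finset.univ : Finset A)) (m := (l : Multiset A))
      (fun a _ => Finset.mem_univ a)
    simpa using this.symm
  rw [h1, h2, Finset.mul_sum]
  constructor
  · calc ∑ a : A, N * (l.count a / N + 1) ≤ ∑ a : A, (l.count a + N) := by
          refine Finset.sum_le_sum fun a _ => ?_
          rw [mul_add, mul_one]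
          exact Nat.add_le_add_right (Nat.mul_div_le _ _) _
      _ = _ := by
        rw [Finset.sum_add_distrib]
        simp [mul_comm]
  · refine Finset.sum_le_sum fun a _ => ?_
    have := Nat.lt_mul_div_succ (l.count a) hN
    omega

omit [Fintype A] in
lemma disp_eq_of_coe (l : List A) : disp step l = ((l : Multiset A).map step).sum := by
  simp [disp]

/-- extension of a list to a member of `words` -/
lemma extend [DecidableEq A] (l : List A) {N : ℕ} (hN : 0 < N) :
    ∃ e : List A, l ++ e ∈ words step (coarse l N).toList N := by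
  refine ⟨(N • coarse l N - (l : Multiset A)).toList, ?_⟩
  have hle : (l : Multiset A) ≤ N • coarse l N := by
    rw [Multiset.le_iff_count]
    intro a
    rw [Multiset.count_nsmul, count_coarse, Multiset.coe_count]
    have := Nat.lt_mul_div_succ (l.count a) hN
    omega
  have hcoe : ((l ++ (N • coarse l N - (l : Multiset A)).toList : List A) : Multiset A) =
      N • coarse l N := by
    rw [← Multiset.coe_add, Multiset.coe_toList]
    exact add_tsub_cancel_of_le hle
  rw [mem_words]
  constructor
  · have := congrArg Multiset.card hcoe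
    rw [Multiset.coe_card, Multiset.card_nsmul] at this
    rw [this, Multiset.length_toList]
  · rw [disp_eq_of_coe, hcoe, disp_eq_of_coe, Multiset.coe_toList, Multiset.map_nsmul,
      Multiset.sum_nsmul]

end best

/-- a sequence that is eventually close to constants converges -/
lemma exists_tendsto_of_close {x : ℕ → ℝ}
    (h : ∀ ε > 0, ∃ s : ℝ, ∀ᶠ n in atTop, |x n - s| ≤ ε) : ∃ v : ℝ, Tendsto x atTop (𝓝 v) := by
  apply cauchySeq_tendsto_of_complete
  rw [Metric.cauchySeq_iff']
  intro ε hε
  obtain ⟨s, hs⟩ := h (ε / 3) (by positivity)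
  obtain ⟨N, hN⟩ := eventually_atTop.1 hs
  refine ⟨N, fun n hn => ?_⟩
  have h1 := abs_le.1 (hN n hn)
  have h2 := abs_le.1 (hN N le_rfl)
  rw [Real.dist_eq, abs_lt]
  constructor <;> linarith [h1.1, h1.2, h2.1, h2.2]

section det

variable [Fintype A] [Nonempty A]

/-- deterministic part -/
theorem det {g : (Fin d → ℤ) → A → ℝ} {C : ℝ} (hg : ∀ z a, |g z a| ≤ C)
    (hconv : ∀ w : List A, w ≠ [] → ∃ γ : ℝ, Tendsto (fun n : ℕ => best step g w n / n) atTop (𝓝 γ))
    {V : ℕ → ℝ} (hV : ∀ n, IsGreatest {r | ∃ l : List A, l.length = n ∧ pay step g 0 l = r} (V n)) :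
    ∃ v : ℝ, Tendsto (fun n : ℕ => V n / n) atTop (𝓝 v) := by
  classical
  obtain ⟨a0⟩ := ‹Nonempty A›
  have hC : 0 ≤ C := (abs_nonneg _).trans (hg 0 a0)
  choose! γ hγ using hconv
  set lam : List A → ℝ := fun w => γ w / w.length with hlam
  have hlamC : ∀ w, w ≠ [] → |lam w| ≤ C := by
    intro w hw
    have hw' : (0 : ℝ) < w.length := by
      have := List.length_pos_iff.2 hw
      exact_mod_cast this
    rw [hlam]
    simp only
    rw [abs_div, abs_of_pos hw', div_le_iff₀ hw']
    have h1 := (hγ w hw).abs
    refine le_of_tendsto h1 ?_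
    filter_upwards [eventually_ge_atTop 1] with n hn
    have hn' : (0 : ℝ) < n := by exact_mod_cast hn
    obtain ⟨l, hl, hle⟩ := exists_best step g w n
    rw [hle, abs_div, abs_of_pos hn', div_le_iff₀ hn']
    have h2 := pay_bound step hg l 0
    rw [(mem_words step).1 hl |>.1] at h2
    push_cast at h2
    linarith
  -- lower bound
  have hlow : ∀ w, w ≠ [] → ∀ ε > 0, ∀ᶠ n : ℕ in atTop, lam w - ε ≤ V n / n := by
    intro w hw ε hε
    have hwl : 0 < w.length := List.length_pos_iff.2 hw
    have hw' : (0 : ℝ) < w.length := by exact_mod_cast hwl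
    have hdiv : Tendsto (fun n : ℕ => n / w.length) atTop atTop :=
      Nat.tendsto_div_const_atTop (by omega)
    have h1 := (hγ w hw).comp hdiv
    have h2 : Tendsto (fun n : ℕ => ((n / w.length : ℕ) : ℝ) / n) atTop (𝓝 (1 / w.length)) := by
      have h3 : Tendsto (fun n : ℕ => 1 / (w.length : ℝ) - 1 / n) atTop
          (𝓝 (1 / w.length - 0)) :=
        tendsto_const_nhds.sub tendsto_one_div_atTop_nhds_zero_nat
      rw [sub_zero] at h3
      refine tendsto_of_tendsto_of_tendsto_of_le_of_le' h3 tendsto_const_nhds ?_ ?_
      · filter_upwards [eventually_ge_atTop 1] with n hn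
        have hn' : (0 : ℝ) < n := by exact_mod_cast hn
        have h4 : n < (n / w.length + 1) * w.length := by
          have := Nat.lt_div_mul_add (a := n) (b := w.length) (by omega)
          nlinarith
        have h5 : (n : ℝ) < ((n / w.length : ℕ) + 1) * w.length := by exact_mod_cast h4
        rw [le_div_iff₀ hn', sub_mul, one_div, one_div, inv_mul_cancel₀ hn'.ne']
        rw [← div_eq_inv_mul, sub_le_iff_le_add, div_le_iff₀ hw']
        exact h5.le
      · filter_upwards [eventually_ge_atTop 1] with n hn
        have hn' : (0 : ℝ) < n := by exact_mod_cast hn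
        have h4 : n / w.length * w.length ≤ n := Nat.div_mul_le_self n _
        have h5 : ((n / w.length : ℕ) : ℝ) * w.length ≤ n := by exact_mod_cast h4
        rw [div_le_div_iff₀ hn' hw']
        linarith
    have h6 := (h2.mul h1).sub
      (tendsto_const_div_atTop_nhds_zero_nat (C * w.length))
    have h7 : 1 / (w.length : ℝ) * γ w - 0 = lam w := by rw [hlam]; simp only; ring
    rw [h7] at h6
    have h8 := h6.eventually (eventually_gt_nhds (show lam w - ε < lam w by linarith))
    filter_upwards [h8, eventually_ge_atTop w.length] with n hn hnw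
    refine hn.le.trans ?_
    have hn' : (0 : ℝ) < n := by exact_mod_cast (lt_of_lt_of_le hwl hnw)
    have hq : 0 < n / w.length := Nat.div_pos hnw hwl
    have hq' : (0 : ℝ) < ((n / w.length : ℕ) : ℝ) := by exact_mod_cast hq
    simp only [Function.comp]
    rw [div_mul_div_comm, mul_comm (n : ℝ), mul_div_mul_left _ _ hq'.ne', ← sub_div]
    refine div_le_div_of_nonneg_right ?_ hn'.le
    obtain ⟨l, hl, hle⟩ := exists_best step g w (n / w.length)
    rw [hle]
    have hll := ((mem_words step).1 hl).1
    have hlen : (l ++ List.replicate (n % w.length) a0).length = n := by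
      rw [List.length_append, List.length_replicate, hll]
      have := Nat.div_add_mod n w.length
      rw [mul_comm] at this
      exact this
    have h9 := (hV n).2 ⟨_, hlen, rfl⟩
    rw [pay_append] at h9
    have h10 := (abs_le.1 (pay_bound step hg (List.replicate (n % w.length) a0)
      (0 + disp step l))).1
    rw [List.length_replicate] at h10
    have h11 : ((n % w.length : ℕ) : ℝ) ≤ w.length := by
      exact_mod_cast (Nat.mod_lt n hwl).le
    have h12 : C * ((n % w.length : ℕ) : ℝ) ≤ C * w.length := mul_le_mul_of_nonneg_left h11 hC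
    linarith
  -- convergence
  refine exists_tendsto_of_close fun ε hε => ?_
  set q : ℕ := Fintype.card A with hq
  have hq0 : 0 < q := Fintype.card_pos
  obtain ⟨K, hK⟩ := exists_nat_gt (max 1 (8 * (C + 1) * q / ε))
  have hK1 : (1 : ℝ) < K := lt_of_le_of_lt (le_max_left _ _) hK
  have hK0 : (0 : ℝ) < K := by linarith
  have hK0' : 0 < K := by exact_mod_cast hK0
  have hK2 : 8 * (C + 1) * q / ε < K := lt_of_le_of_lt (le_max_right _ _) hK
  rw [div_lt_iff₀ hε] at hK2
  -- the finite set of words
  have hfin : {w : List A | w.length ≤ K + q}.Finite := List.finite_length_le A (K + q)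
  set W : Finset (List A) := hfin.toFinset.filter (fun w => w ≠ []) with hW
  have hWne : W.Nonempty := by
    refine ⟨[a0], ?_⟩
    simp only [hW, Finset.mem_filter, Set.Finite.mem_toFinset, Set.mem_ofPred_eq,
      List.length_singleton]
    exact ⟨by omega, by simp⟩
  obtain ⟨w1, hw1, hw1max⟩ := W.exists_max_image lam hWne
  refine ⟨lam w1, ?_⟩
  have hw1' : w1 ≠ [] := (Finset.mem_filter.1 hw1).2
  have hclose : ∀ w ∈ W, ∀ᶠ n : ℕ in atTop, best step g w n / n < γ w + ε / 4 := by
    intro w hw
    have hw' : w ≠ [] := (Finset.mem_filter.1 hw).2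
    exact (hγ w hw').eventually (gt_mem_nhds (by linarith))
  have hclose' : ∀ᶠ n : ℕ in atTop, ∀ w ∈ W, best step g w n / n < γ w + ε / 4 := by
    rw [Finset.eventually_all]
    exact hclose
  have hNt : Tendsto (fun n : ℕ => n / K + 1) atTop atTop :=
    (tendsto_add_atTop_nat 1).comp (Nat.tendsto_div_const_atTop (by omega))
  filter_upwards [hlow w1 hw1' ε hε, hNt.eventually hclose', eventually_ge_atTop K]
    with n hn1 hn2 hn3
  have hn0 : 0 < n := by omega
  have hn' : (0 : ℝ) < n := by exact_mod_cast hn0
  rw [abs_le]
  constructor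
  · linarith
  · set N := n / K + 1 with hN
    have hN0 : 0 < N := Nat.succ_pos _
    have hN' : (0 : ℝ) < N := by exact_mod_cast hN0
    obtain ⟨l, hl, hle⟩ := (hV n).1
    obtain ⟨e, he⟩ := extend step l hN0
    set w := (coarse l N).toList with hw
    have hwlen : w.length = (coarse l N).card := Multiset.length_toList _
    obtain ⟨hc1, hc2⟩ := card_coarse l hN0
    rw [← hwlen, hl] at hc1 hc2
    rw [← hq] at hc1
    have hNK : n < N * K := by
      rw [hN]
      have := Nat.lt_div_mul_add (a := n) (b := K) hK0'
      nlinarith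
    have hwne : w ≠ [] := by
      intro h0
      rw [h0] at hc2
      simp at hc2
      omega
    have hwW : w ∈ W := by
      simp only [hW, Finset.mem_filter, Set.Finite.mem_toFinset, Set.mem_ofPred_eq]
      refine ⟨?_, hwne⟩
      by_contra hcon
      have h1 : K + q + 1 ≤ w.length := by omega
      have h2 : N * (K + q + 1) ≤ N * w.length := Nat.mul_le_mul_left N h1
      have h3 : N * (K + q + 1) = N * K + N * q + N := by ring
      rw [h3] at h2
      omega
    have hwl' : (0 : ℝ) < w.length := by
      have := List.length_pos_iff.2 hwne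
      exact_mod_cast this
    have h1 := hn2 w hwW
    rw [div_lt_iff₀ hN'] at h1
    have h2 := le_best step g he
    rw [pay_append, hle] at h2
    have helen : (e.length : ℝ) ≤ N * q := by
      have h3 := ((mem_words step).1 he).1
      rw [List.length_append, hl] at h3
      have : e.length ≤ N * q := by omega
      exact_mod_cast this
    have h3 := (abs_le.1 (pay_bound step hg e (0 + disp step l))).1
    have h4 : C * (e.length : ℝ) ≤ C * (N * q) := mul_le_mul_of_nonneg_left helen hC
    have h5 : V n ≤ (γ w + ε / 4) * N + C * (N * q) := by linarith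
    have h6 : γ w = lam w * w.length := by
      rw [hlam]; simp only; field_simp
    have h7 : lam w * (N * w.length - n) ≤ C * (N * q) := by
      have h8 : (0 : ℝ) ≤ N * w.length - n := by
        have : (n : ℝ) ≤ N * w.length := by exact_mod_cast hc2
        linarith
      have h9 : (N : ℝ) * w.length - n ≤ N * q := by
        have : (N : ℝ) * w.length ≤ n + N * q := by exact_mod_cast hc1
        linarith
      calc lam w * (N * w.length - n) ≤ C * (N * w.length - n) :=
            mul_le_mul_of_nonneg_right ((le_abs_self _).trans (hlamC w hwne)) h8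
        _ ≤ C * (N * q) := mul_le_mul_of_nonneg_left h9 hC
    have h8 : lam w ≤ lam w1 := hw1max w hwW
    have hNn : (N : ℝ) ≤ 2 * n / K := by
      rw [le_div_iff₀ hK0]
      have h9 : N * K ≤ n + K := by
        rw [hN, add_mul, one_mul]
        exact Nat.add_le_add_right (Nat.div_mul_le_self n K) K
      have h10 : (N : ℝ) * K ≤ n + K := by exact_mod_cast h9
      have h11 : (K : ℝ) ≤ n := by exact_mod_cast hn3
      linarith
    have hNn' : (N : ℝ) ≤ n := by
      have h9 : N ≤ n := by
        have hK2' : 2 ≤ K := by
          have : (1 : ℕ) < K := by exact_mod_cast hK1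
          omega
        have : n / K ≤ n / 2 := Nat.div_le_div_left hK2' (by norm_num)
        omega
      exact_mod_cast h9
    have h9 : 2 * C * (N * q) ≤ ε / 2 * n := by
      have h10 : 2 * C * (N * q) ≤ 2 * C * (2 * n / K * q) := by
        refine mul_le_mul_of_nonneg_left (mul_le_mul_of_nonneg_right hNn (by positivity))
          (by positivity)
      refine h10.trans ?_
      rw [show 2 * C * (2 * (n : ℝ) / K * q) = (4 * C * q * n) / K by ring, div_le_iff₀ hK0]
      have h11 : 4 * C * (q : ℝ) ≤ ε / 2 * K := by
        have : 0 ≤ 8 * (q : ℝ) := by positivity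
        nlinarith
      calc 4 * C * (q : ℝ) * n ≤ (ε / 2 * K) * n := mul_le_mul_of_nonneg_right h11 hn'.le
        _ = ε / 2 * n * K := by ring
    rw [sub_le_iff_le_add, div_le_iff₀ hn']
    have h10 : ε / 4 * N ≤ ε / 4 * n := mul_le_mul_of_nonneg_left hNn' (by positivity)
    have h11 : lam w * n ≤ lam w1 * n := mul_le_mul_of_nonneg_right h8 hn'.le
    rw [h6] at h5
    nlinarith
end det


section stoch

variable [Fintype A] [Nonempty A] {Ω : Type} [MeasurableSpace Ω] {P : Measure Ω}
  [IsProbabilityMeasure P]

/-- almost sure convergence of the best average payoff from the origin -/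
theorem ae_origin (τ : (Fin d → ℤ) → Ω → Ω) (hmp : ∀ z, MeasurePreserving (τ z) P P)
    (g : Ω → (Fin d → ℤ) → A → ℝ) (hgm : ∀ z a, Measurable fun ω => g ω z a)
    {C : ℝ} (hg : ∀ ω z a, |g ω z a| ≤ C)
    (hst : ∀ z ω z' a, g (τ z ω) z' a = g ω (z + z') a) :
    ∀ᵐ ω ∂P, ∀ w : List A, w ≠ [] →
      ∃ γ : ℝ, Tendsto (fun n : ℕ => best step (g ω) w n / n) atTop (𝓝 γ) := by
  classical
  have : Countable A := Finite.to_countable
  rw [ae_all_iff]
  intro w
  have hC : 0 ≤ C := by
    obtain ⟨ω⟩ : Nonempty Ω := nonempty_of_isProbabilityMeasure P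
    exact (abs_nonneg _).trans (hg ω 0 (Classical.arbitrary A))
  have hpaym : ∀ (l : List A) z, Measurable fun ω => pay step (g ω) z l := by
    intro l
    induction l with
    | nil => intro z; simp only [pay]; exact measurable_const
    | cons a l ih => intro z; simp only [pay]; exact (hgm z a).add (ih _)
  have hpaysh : ∀ (l : List A) z z' ω, pay step (g (τ z ω)) z' l = pay step (g ω) (z + z') l := by
    intro l
    induction l with
    | nil => intro z z' ω; simp [pay]
    | cons a l ih =>
      intro z z' ω
      simp only [pay, ih, hst]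
      rw [add_assoc]
  set D := disp step w with hD
  have hpayit : ∀ (k : ℕ) (l : List A) z ω,
      pay step (g ((τ D)^[k] ω)) z l = pay step (g ω) (k • D + z) l := by
    intro k
    induction k with
    | zero => intro l z ω; simp
    | succ k ih =>
      intro l z ω
      rw [Function.iterate_succ_apply, ih, hpaysh, succ_nsmul', add_assoc]
  set L : ℕ → Ω → ℝ := fun n ω => best step (g ω) w n + C * w.length * n with hL
  have hbm : ∀ n, Measurable fun ω => best step (g ω) w n := by
    intro n
    have h1 : (fun ω => best step (g ω) w n) =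
        (words step w n).sup' (words_nonempty step w n) (fun l ω => pay step (g ω) 0 l) := by
      ext ω
      rw [Finset.sup'_apply]
      rfl
    rw [h1]
    exact Finset.measurable_sup' _ fun l _ => hpaym l 0
  have hLm : ∀ n, Measurable (L n) := fun n => (hbm n).add measurable_const
  have hbb : ∀ n ω, |best step (g ω) w n| ≤ C * w.length * n := by
    intro n ω
    obtain ⟨l, hl, hle⟩ := exists_best step (g ω) w n
    rw [hle]
    have h2 := pay_bound step (hg ω) l 0
    rw [((mem_words step).1 hl).1] at h2
    push_cast at h2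
    linarith
  have h0 : ∀ n ω, 0 ≤ L n ω := fun n ω => by
    have := (abs_le.1 (hbb n ω)).1
    simp only [hL]; linarith
  have hB : ∀ n ω, L n ω ≤ (2 * (C * w.length)) * n := fun n ω => by
    have := (abs_le.1 (hbb n ω)).2
    simp only [hL]; linarith
  have hs : ∀ k l ω, L k ω + L l ((τ D)^[k] ω) ≤ L (k + l) ω := by
    intro k l ω
    obtain ⟨a, ha, hae⟩ := exists_best step (g ω) w k
    obtain ⟨b, hb, hbe⟩ := exists_best step (g ((τ D)^[k] ω)) w l
    rw [mem_words] at ha hb
    have hab : a ++ b ∈ words step w (k + l) := by
      rw [mem_words, List.length_append, disp_append, ha.1, hb.1, ha.2, hb.2, add_mul, add_nsmul]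
      exact ⟨rfl, rfl⟩
    have h1 := le_best step (g ω) hab
    rw [pay_append, ha.2, zero_add] at h1
    rw [hpayit, add_zero] at hbe
    simp only [hL]
    rw [hae, hbe]
    push_cast
    linarith
  have hmain := SuperErgodic.superergodic (hmp D) hLm h0 hB hs
  filter_upwards [hmain] with ω hω _
  obtain ⟨γ, hγ⟩ := hω
  refine ⟨γ - C * w.length, ?_⟩
  refine (hγ.sub_const (C * w.length)).congr' ?_
  filter_upwards [eventually_ge_atTop 1] with n hn
  have hn' : (0 : ℝ) < n := by exact_mod_cast hn
  simp only [hL]
  field_simp
  ring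

/-- almost sure convergence of the best average payoff from every site -/
theorem ae_all (τ : (Fin d → ℤ) → Ω → Ω) (hmp : ∀ z, MeasurePreserving (τ z) P P)
    (g : Ω → (Fin d → ℤ) → A → ℝ) (hgm : ∀ z a, Measurable fun ω => g ω z a)
    {C : ℝ} (hg : ∀ ω z a, |g ω z a| ≤ C)
    (hst : ∀ z ω z' a, g (τ z ω) z' a = g ω (z + z') a) :
    ∀ᵐ ω ∂P, ∀ z : Fin d → ℤ, ∀ V : ℕ → ℝ,
      (∀ n, IsGreatest {r | ∃ l : List A, l.length = n ∧ pay step (g ω) z l = r} (V n)) →
      ∃ v : ℝ, Tendsto (fun n : ℕ => V n / n) atTop (𝓝 v) := by
  rw [ae_all_iff]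
  intro z
  have hpaysh : ∀ (l : List A) z z' ω, pay step (g (τ z ω)) z' l = pay step (g ω) (z + z') l := by
    intro l
    induction l with
    | nil => intro z z' ω; simp [pay]
    | cons a l ih =>
      intro z z' ω
      simp only [pay, ih, hst]
      rw [add_assoc]
  have h1 := ae_origin step τ hmp g hgm hg hst
  have h2 := (hmp z).quasiMeasurePreserving.ae h1
  filter_upwards [h2] with ω hω V hV
  refine det step (hg (τ z ω)) hω ?_
  intro n
  have := hV n
  simp only [hpaysh, add_zero]
  exact this

end stoch

end Pool.Agent.H50.PathGame
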